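import Pool.Agent.Helper66.SB.GoalsB

/-!
# Project SB (MP_d3128a_ag): packet NEF
-/

set_option autoImplicit false

open Module MvPolynomial

noncomputable section

namespace Pool.Agent.Helper54.SB

open Pool.Agent.Helper66.SB Helper18.Shgh

theorem tdeg {k : ℕ} {F : R2} (hF : F ∈ V (k : ℤ)) (htop : coeff (Finsupp.single 1 k) F ≠ 0) :
    F.totalDegree = k := by
  apply le_antisymm
  · rcases mem_V.1 hF with h | h
    · rw [h] at htop
      simp at htop
    · exact_mod_cast h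
  · have h := le_totalDegree (mem_support_iff.2 htop)
    rwa [Finsupp.sum_single_index rfl] at h

/-- cancelling an element of order at most `w` -/
theorem mem_of_mul {P : Fin 2 → ℂ} {m w : ℕ} {A G : R2} (hA : A ∉ mI P ^ (w + 1))
    (h : A * G ∈ mI P ^ m) : G ∈ mI P ^ (m - w) := by
  rw [mem_mI_pow_order] at *
  rw [map_mul, MvPolynomial.coe_mul, MvPowerSeries.order_mul] at h
  push Not at hA
  by_cases hG : MvPowerSeries.order (tau P G : MvPowerSeries (Fin 2) ℂ) = ⊤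
  · rw [hG]; exact le_top
  obtain ⟨g, hg⟩ := ENat.ne_top_iff_exists.1 hG
  have hA' : MvPowerSeries.order (tau P A : MvPowerSeries (Fin 2) ℂ) ≠ ⊤ := ne_top_of_lt hA
  obtain ⟨a, ha⟩ := ENat.ne_top_iff_exists.1 hA'
  rw [← hg, ← ha] at h
  rw [← ha] at hA
  rw [← hg]
  norm_cast at *
  omega

theorem mem_of_pow_mul {P : Fin 2 → ℂ} {w : ℕ} {A G : R2} (hA : A ∉ mI P ^ (w + 1)) (e : ℕ) :
    ∀ m, A ^ e * G ∈ mI P ^ m → G ∈ mI P ^ (m - e * w) := by
  induction e with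
  | zero => intro m h; simpa using h
  | succ e ih =>
    intro m h
    have h2 : A * (A ^ e * G) ∈ mI P ^ m := by
      rw [← mul_assoc, ← pow_succ']; exact h
    have h3 := ih _ (mem_of_mul hA h2)
    rwa [Nat.sub_sub, show w + e * w = (e + 1) * w by ring] at h3

theorem mul_mem_V {a b : ℤ} {F G : R2} (hF : F ∈ V a) (hG : G ∈ V b) : F * G ∈ V (a + b) := by
  rw [mem_V] at *
  rcases hF with hF | hF
  · left; rw [hF, zero_mul]
  rcases hG with hG | hG
  · left; rw [hG, mul_zero]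
  right
  have := totalDegree_mul F G
  omega

theorem finrank_mulMap {h : R2} (hh : h ≠ 0) (M : Submodule ℂ R2) :
    finrank ℂ (M.map (LinearMap.mulLeft ℂ h)) = finrank ℂ M :=
  finrank_map_inj (mul_right_injective₀ hh) M

theorem totalDegree_pow' {F : R2} (hF : F ≠ 0) (e : ℕ) :
    (F ^ e).totalDegree = e * F.totalDegree := by
  induction e with
  | zero => simp
  | succ e ih =>
    rw [pow_succ, MvPolynomial.totalDegree_mul_of_isDomain (pow_ne_zero _ hF) hF, ih]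
    ring

theorem ch2_mul {r : ℕ} (k : ℕ) (w : Fin r → ℕ) (e : ℕ) :
    ch2 (((e + 1 : ℕ) : ℤ) * k) Finset.univ (fun i => (e + 1) * w i) -
      ch2 ((e : ℤ) * k) Finset.univ (fun i => e * w i) =
      (2 * e + 1) * ((k : ℤ) ^ 2 - ∑ i, (w i : ℤ) ^ 2) + (3 * k - ∑ i, (w i : ℤ)) := by
  unfold ch2
  have h1 : ∀ i : Fin r, (((e + 1) * w i : ℕ) : ℤ) * ((((e + 1) * w i : ℕ) : ℤ) + 1) =
      ((e * w i : ℕ) : ℤ) * (((e * w i : ℕ) : ℤ) + 1) + (2 * e + 1) * (w i : ℤ) ^ 2 + (w i : ℤ) := by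
    intro i
    push_cast
    ring
  rw [Finset.sum_congr rfl fun i _ => h1 i, Finset.sum_add_distrib, Finset.sum_add_distrib,
    ← Finset.mul_sum]
  push_cast
  ring

theorem ch2_add {r : ℕ} (k δ : ℕ) (μ w : Fin r → ℕ) :
    ch2 ((δ : ℤ) + k) Finset.univ (fun i => μ i + w i) - ch2 δ Finset.univ μ =
      2 * ((k : ℤ) * δ - ∑ i, (μ i : ℤ) * w i) + ((k : ℤ) ^ 2 - ∑ i, (w i : ℤ) ^ 2) +
        (3 * k - ∑ i, (w i : ℤ)) := by
  unfold ch2
  have h1 : ∀ i : Fin r, ((μ i + w i : ℕ) : ℤ) * (((μ i + w i : ℕ) : ℤ) + 1) =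
      (μ i : ℤ) * ((μ i : ℤ) + 1) + 2 * ((μ i : ℤ) * w i) + (w i : ℤ) ^ 2 + (w i : ℤ) := by
    intro i
    push_cast
    ring
  rw [Finset.sum_congr rfl fun i _ => h1 i, Finset.sum_add_distrib, Finset.sum_add_distrib,
    Finset.sum_add_distrib, ← Finset.mul_sum]
  ring

theorem core (hEX : G_EX) {r k u : ℕ} {w : Fin r → ℕ} (hS : Sq r k u w)
    {P : Fin r → Fin 2 → ℂ} {F : R2} (hG : Good r k w P F) (δ : ℕ) (μ : Fin r → ℕ)
    (h0 : 2 * (finrank ℂ (SP (δ : ℤ) Finset.univ P μ) : ℤ) = ch2 δ Finset.univ μ)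
    (h1 : 2 * (finrank ℂ (SP ((δ : ℤ) + k) Finset.univ P fun i => μ i + w i) : ℤ) =
      ch2 ((δ : ℤ) + k) Finset.univ (fun i => μ i + w i))
    (hj : ∀ j : ℕ, j ≤ δ + 2 →
      2 * (finrank ℂ (SP ((j : ℤ) * k) Finset.univ P fun i => j * w i) : ℤ) =
      ch2 ((j : ℤ) * k) Finset.univ (fun i => j * w i))
    (e : ℕ) (h : R2) (hFh : ¬ F ∣ h) (hv : F ^ e * h ∈ SP (δ : ℤ) Finset.univ P μ) :
    (e : ℤ) * u ≤ (k : ℤ) * δ - ∑ i, (μ i : ℤ) * w i := by
  have hk : 1 ≤ k := by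
    have h2 := hS.sqr
    have h3 := hS.pos
    rcases Nat.eq_zero_or_pos k with hk | hk
    · subst hk
      simp at h2
      omega
    · exact hk
  obtain ⟨hF0, -, hex⟩ := hEX r k w P F hk hG
  have hh0 : h ≠ 0 := by
    rintro rfl
    exact hFh (dvd_zero _)
  have htd : F.totalDegree = k := tdeg hG.mem.1 hG.top
  have hprime : Prime F := hG.irr.prime
  -- degree of `h`
  have hVh : h ∈ V ((δ : ℤ) - e * k) := by
    have h2 : F ^ e ≠ 0 := pow_ne_zero _ hF0
    have h3 : (F ^ e).totalDegree = e * k := by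
      rw [totalDegree_pow' hF0, htd]
    have h4 := (mul_mem_V_iff (F := h) h2 (n := (δ : ℤ) - e * k))
    rw [h3] at h4
    apply h4.1
    convert hv.1 using 2
    push_cast
    ring
  have hmh : ∀ i, h ∈ mI (P i) ^ (μ i - e * w i) := fun i =>
    mem_of_pow_mul (hG.exact i) e _ (hv.2 i (Finset.mem_univ _))
  -- `e ≤ δ`
  have heδ : e ≤ δ := by
    have h2 : F ^ e * h ≠ 0 := mul_ne_zero (pow_ne_zero _ hF0) hh0
    have h3 : ((F ^ e * h).totalDegree : ℤ) ≤ δ := by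
      rcases mem_V.1 hv.1 with h4 | h4
      · exact absurd h4 h2
      · exact h4
    rw [MvPolynomial.totalDegree_mul_of_isDomain (pow_ne_zero _ hF0) hh0, totalDegree_pow' hF0,
      htd] at h3
    have h4 : e * k + h.totalDegree ≤ δ := by exact_mod_cast h3
    have h5 : e * 1 ≤ e * k := Nat.mul_le_mul_left _ hk
    omega
  set W0 := SP (δ : ℤ) Finset.univ P μ with hW0
  set W1 := SP ((δ : ℤ) + k) Finset.univ P (fun i => μ i + w i) with hW1
  set Ae := SP ((e : ℤ) * k) Finset.univ P (fun i => e * w i) with hAe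
  set Ae1 := SP (((e + 1 : ℕ) : ℤ) * k) Finset.univ P (fun i => (e + 1) * w i) with hAe1
  -- the two subspaces
  have hX : Ae1.map (LinearMap.mulLeft ℂ h) ≤ W1 := by
    rintro _ ⟨G, hGm, rfl⟩
    rw [LinearMap.mulLeft_apply]
    refine ⟨?_, fun i hi => ?_⟩
    · have h2 := mul_mem_V hVh hGm.1
      convert h2 using 2
      push_cast
      ring
    · have h2 := mul_mem_mI_pow (hmh i) (hGm.2 i hi)
      refine Ideal.pow_le_pow_right ?_ h2
      have h3 : (e + 1) * w i = e * w i + w i := by ring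
      show μ i + w i ≤ μ i - e * w i + (e + 1) * w i
      rw [h3]
      omega
  have hY : W0.map (LinearMap.mulLeft ℂ F) ≤ W1 := by
    rintro _ ⟨G, hGm, rfl⟩
    rw [LinearMap.mulLeft_apply]
    exact (hex δ μ G).2 hGm
  have hI : Ae1.map (LinearMap.mulLeft ℂ h) ⊓ W0.map (LinearMap.mulLeft ℂ F) ≤
      Ae.map (LinearMap.mulLeft ℂ (h * F)) := by
    rintro x ⟨⟨G, hGm, rfl⟩, ⟨w', hw', hx⟩⟩
    rw [LinearMap.mulLeft_apply, LinearMap.mulLeft_apply] at hx
    have h2 : F ∣ h * G := ⟨w', hx.symm⟩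
    obtain ⟨G', rfl⟩ := (hprime.dvd_or_dvd h2).resolve_left hFh
    refine ⟨G', ?_, ?_⟩
    · apply (hex ((e : ℤ) * k) (fun i => e * w i) G').1
      have e1 : (e : ℤ) * k + k = ((e + 1 : ℕ) : ℤ) * k := by push_cast; ring
      have e2 : (fun i => e * w i + w i) = fun i => (e + 1) * w i := by
        funext i
        ring
      rw [e1, e2]
      exact hGm
    · rw [LinearMap.mulLeft_apply, LinearMap.mulLeft_apply, mul_assoc]
  have hfX := finrank_mulMap hh0 Ae1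
  have hfY := finrank_mulMap hF0 W0
  have hfI := finrank_mulMap (mul_ne_zero hh0 hF0) Ae
  have hdim := Submodule.finrank_sup_add_finrank_inf_eq (Ae1.map (LinearMap.mulLeft ℂ h))
    (W0.map (LinearMap.mulLeft ℂ F))
  have hs := Submodule.finrank_mono (sup_le hX hY)
  have hi := Submodule.finrank_mono hI
  rw [hfX, hfY] at hdim
  rw [hfI] at hi
  have hfin : finrank ℂ Ae1 + finrank ℂ W0 ≤ finrank ℂ W1 + finrank ℂ Ae := by omega
  have hj0 := hj e (by omega)
  have hj1 := hj (e + 1) (by omega)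
  have e1 := ch2_mul k w e
  have e2 := ch2_add k δ μ w
  have e3 : (k : ℤ) ^ 2 - ∑ i, (w i : ℤ) ^ 2 = u := by
    have h2 := hS.sqr
    have h3 : ((u + ∑ i, w i ^ 2 : ℕ) : ℤ) = ((k ^ 2 : ℕ) : ℤ) := by rw [h2]
    push_cast at h3
    linarith
  rw [e3] at e1 e2
  have hfin' : (finrank ℂ Ae1 : ℤ) + finrank ℂ W0 ≤ finrank ℂ W1 + finrank ℂ Ae := by
    exact_mod_cast hfin
  rw [← hAe] at hj0
  rw [← hAe1] at hj1
  nlinarith

theorem gNEF (hEX : G_EX) : G_NEF := by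
  intro r k u w hS P F hG δ μ h0 h1 hj hd
  have hcore := core hEX hS hG δ μ h0 h1 hj
  have hF0 : Irreducible F := hG.irr
  constructor
  · have h2 : 0 < finrank ℂ (SP (δ : ℤ) Finset.univ P μ) := hd
    obtain ⟨v, hv⟩ := (Module.finrank_pos_iff_exists_ne_zero (R := ℂ)).1 h2
    have hv0 : (v : R2) ≠ 0 := fun h => hv (Subtype.ext h)
    obtain ⟨e, h, hFh, hvh⟩ := WfDvdMonoid.max_power_factor hv0 hF0
    have h3 := hcore e h hFh (hvh ▸ v.2)
    have h4 : (0 : ℤ) ≤ (e : ℤ) * u := by positivity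
    exact h4.trans h3
  · rintro ⟨v, hv, hv0, hFv⟩
    obtain ⟨e, h, hFh, hvh⟩ := WfDvdMonoid.max_power_factor hv0 hF0
    have h3 := hcore e h hFh (hvh ▸ hv)
    have he : e ≠ 0 := by
      rintro rfl
      rw [pow_zero, one_mul] at hvh
      exact hFh (hvh ▸ hFv)
    have h4 : (1 : ℤ) ≤ e := by exact_mod_cast Nat.one_le_iff_ne_zero.2 he
    nlinarith

end Pool.Agent.Helper54.SB
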